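import Pool.Agent.T9h78.Sing.Main

/-!
# Minimum-length reflection factorizations of Singer cycles in `Sp_{2n}(q)` and `O^-_{2n}(q)`

Let `F` be a finite field with `q` elements, `V` a vector space of dimension `2n` (`n ≥ 1`), and let `G` be the
isometry group of a nondegenerate alternating bilinear form on `V`, or of a quadratic form on `V` with
nondegenerate polar form (a Singer cycle exists only for minus type, so this is `O^-_{2n}(q)`; the type need not
be assumed).  Every irreducible `c ∈ G` of order `h = q^n + 1` has exactly `h^(2n-1)` factorizations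
`c = t_1 ⋯ t_{2n}` into reflections of `G`.  All prime powers `q` (odd and even), all `n ≥ 1`, all Singer cycles.
-/

namespace Pool.Agent.Results.MP_f86ddb_al.SingerCycles

open Module

universe u

section Defs

variable {F V : Type u} [Field F] [AddCommGroup V] [Module F V]

/-- The group of linear maps of `V` preserving the bilinear form `B`
(the symplectic group if `B` is alternating and nondegenerate). -/
def isometryGroup (B : LinearMap.BilinForm F V) : Subgroup (V ≃ₗ[F] V) where
  carrier := {g | ∀ x y, B (g x) (g y) = B x y}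
  mul_mem' := by
    intro a b ha hb x y
    rw [LinearEquiv.mul_apply, LinearEquiv.mul_apply, ha, hb]
  one_mem' := fun _ _ => rfl
  inv_mem' := by
    intro a ha x y
    have h := ha (a⁻¹ x) (a⁻¹ y)
    have e : ∀ z, a (a⁻¹ z) = z := fun z => a.apply_symm_apply z
    rw [e, e] at h
    exact h.symm

/-- The group of linear maps of `V` preserving the quadratic form `Q` (the orthogonal group). -/
def orthogonalGroup (Q : QuadraticForm F V) : Subgroup (V ≃ₗ[F] V) where
  carrier := {g | ∀ x, Q (g x) = Q x}
  mul_mem' := by
    intro a b ha hb x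
    rw [LinearEquiv.mul_apply, ha, hb]
  one_mem' := fun _ => rfl
  inv_mem' := by
    intro a ha x
    have h := ha (a⁻¹ x)
    have e : ∀ z, a (a⁻¹ z) = z := fun z => a.apply_symm_apply z
    rw [e] at h
    exact h.symm

/-- A reflection: a non-identity linear map fixing some hyperplane pointwise (transvections included). -/
def IsReflection (g : V ≃ₗ[F] V) : Prop :=
  g ≠ 1 ∧ ∃ H : Submodule F V, finrank F H + 1 = finrank F V ∧ ∀ x ∈ H, g x = x

/-- `g` is irreducible: `0` and `V` are its only invariant subspaces. -/
def IsIrreducible (g : V ≃ₗ[F] V) : Prop :=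
  ∀ W : Submodule F V, (∀ x ∈ W, g x ∈ W) → W = ⊥ ∨ W = ⊤

/-- The factorizations of `c` into `N` reflections of `G`: ordered tuples `(t_1, …, t_N)` of reflections in `G`
with `t_1 ⋯ t_N = c`. -/
def factorizations (G : Subgroup (V ≃ₗ[F] V)) (N : ℕ) (c : V ≃ₗ[F] V) : Set (Fin N → (V ≃ₗ[F] V)) :=
  {t | (∀ i, t i ∈ G ∧ IsReflection (t i)) ∧ (List.ofFn t).prod = c}

/-- A Singer cycle of `G ≤ GL(V)`, `dim V = 2n`, `|F| = q`: an irreducible element of `G` of order `q^n + 1`. -/
def IsSingerCycle [Fintype F] (n : ℕ) (G : Subgroup (V ≃ₗ[F] V)) (c : V ≃ₗ[F] V) : Prop :=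
  c ∈ G ∧ IsIrreducible c ∧ orderOf c = Fintype.card F ^ n + 1

end Defs

/-- **Q1 answered in the affirmative.**  For every finite field `F`, every `n ≥ 1`, every `2n`-dimensional space `V`
over `F`, a Singer cycle `c` of the isometry group of a nondegenerate alternating form, or of a quadratic form with
nondegenerate polar form, has exactly `h^(2n-1)` factorizations into `2n` reflections of the group, `h` the order
of `c`. -/
theorem result :
    ∀ (F V : Type u) [Field F] [Fintype F] [AddCommGroup V] [Module F V] (n : ℕ), 1 ≤ n → finrank F V = 2 * n →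
      (∀ B : LinearMap.BilinForm F V, B.IsAlt → B.Nondegenerate →
        ∀ c, IsSingerCycle n (isometryGroup B) c →
          (factorizations (isometryGroup B) (2 * n) c).ncard = orderOf c ^ (2 * n - 1)) ∧
      (∀ Q : QuadraticForm F V, (QuadraticMap.polarBilin Q).Nondegenerate →
        ∀ c, IsSingerCycle n (orthogonalGroup Q) c →
          (factorizations (orthogonalGroup Q) (2 * n) c).ncard = orderOf c ^ (2 * n - 1)) := by
  intro F V _ _ _ _ n hn hV
  have hfd : FiniteDimensional F V := Module.finite_of_finrank_pos (by omega)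
  refine ⟨fun B hA hB c hc => ?_, fun Q hQ c hc => ?_⟩
  · obtain ⟨h1, h2, h3⟩ := hc
    rw [h3]
    exact Pool.Agent.T9h78.Sing.main_sp n hn hV B hA (fun x hx => hB.1 x hx) c h1 h2 h3
  · obtain ⟨h1, h2, h3⟩ := hc
    rw [h3]
    exact Pool.Agent.T9h78.Sing.main_o n hn hV Q (fun x hx => hQ.1 x hx) c h1 h2 h3

end Pool.Agent.Results.MP_f86ddb_al.SingerCycles
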